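import Mathlib

set_option autoImplicit false

namespace Pool.Agent.Results.MP_2f9b3f_lc.Counter
open Finset

section
variable {n : ℕ}

/-- marginal scenario -/
def Scenario (M : Set (Finset (Fin n))) : Prop :=
  (∀ S ∈ M, ∀ T ⊆ S, T ∈ M) ∧ ∅ ∈ M ∧ ∀ i, {i} ∈ M

/-- `O_S`, the outcome set of `A_i` being `Fin (k i)` -/
abbrev Out (k : Fin n → ℕ) (S : Finset (Fin n)) := (i : S) → Fin (k i)

/-- restriction `O_S → O_T` -/
def res {k : Fin n → ℕ} {T S : Finset (Fin n)} (h : T ⊆ S) (x : Out k S) : Out k T :=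
  fun i => x ⟨i.1, h i.2⟩

/-- the polytope of marginal models -/
def Models (M : Set (Finset (Fin n))) (k : Fin n → ℕ) : Set ((S : M) → Out k S → ℝ) :=
  {p | (∀ S x, 0 ≤ p S x) ∧ (∀ S, ∑ x, p S x = 1) ∧
    ∀ (T S : M) (h : T.1 ⊆ S.1) (y : Out k T), p T y = ∑ x with res h x = y, p S x}

/-- Shannon entropy -/
noncomputable def H {α : Type} [Fintype α] (q : α → ℝ) : ℝ := ∑ x, -(q x * Real.log (q x))

def Polymatroid (f : Finset (Fin n) → ℝ) : Prop :=
  f ∅ = 0 ∧ (∀ S T, S ⊆ T → f S ≤ f T) ∧ ∀ S T, f (S ∪ T) + f (S ∩ T) ≤ f S + f T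
end

abbrev k2 : Fin 4 → ℕ := fun _ => 2

def M0 : Set (Finset (Fin 4)) := {S | S ⊆ {0, 1, 2} ∨ S ⊆ {0, 3} ∨ S ⊆ {1, 3} ∨ S ⊆ {2, 3}}

instance : DecidablePred (· ∈ M0) := fun S => by unfold M0; exact inferInstanceAs (Decidable (_ ∨ _))

def e (S : Finset (Fin 4)) (j : Fin 4) : Out k2 S := fun i => if i.1 = j then 1 else 0
def cst (S : Finset (Fin 4)) (b : Fin 2) : Out k2 S := fun _ => b

def c (S : Finset (Fin 4)) (x : Out k2 S) : ℕ :=
  if 3 ∈ S then (if x = cst S 1 then 1 else if x = cst S 0 then 2 else 0)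
  else (if x = e S 0 then 1 else 0) + (if x = e S 1 then 1 else 0) + (if x = e S 2 then 1 else 0)

noncomputable def p0 : (S : M0) → Out k2 S → ℝ := fun S x => (c S x : ℝ) / 3

lemma c_sum : ∀ S ∈ M0, ∑ x, c S x = 3 := by decide +kernel

lemma c_res : ∀ T ∈ M0, ∀ S ∈ M0, ∀ (h : T ⊆ S) (y : Out k2 T), c T y = ∑ x with res h x = y, c S x := by
  decide +kernel

lemma p0_mem : p0 ∈ Models M0 k2 := by
  refine ⟨fun S x => by unfold p0; positivity, fun S => ?_, fun T S h y => ?_⟩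
  · simp only [p0]
    rw [← sum_div, ← Nat.cast_sum, c_sum S S.2]; norm_num
  · simp only [p0]
    rw [← sum_div, ← Nat.cast_sum, ← c_res T T.2 S S.2 h y]

lemma red {S : Finset (Fin 4)} {q : Out k2 S → ℝ} (hq : ∀ x, c S x = 0 → q x = 0) (F G : Finset (Out k2 S))
    (h : G ⊆ F ∧ ∀ x ∈ F, x ∉ G → c S x = 0) : ∑ x ∈ F, q x = ∑ x ∈ G, q x :=
  (sum_subset h.1 fun x h1 h2 => hq x (h.2 x h1 h2)).symm

def T0 : M0 := ⟨{0, 1, 2}, by decide⟩
def pr (i : Fin 3) : M0 := ⟨{i.castSucc, 3}, by revert i; decide⟩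
def sg (i : Fin 4) : M0 := ⟨{i}, by revert i; decide⟩

lemma s1 : ∀ i : Fin 3, (sg i.castSucc).1 ⊆ T0.1 := by decide
lemma s2 : ∀ i : Fin 3, (sg i.castSucc).1 ⊆ (pr i).1 := by decide
lemma s3 : ∀ i : Fin 3, (sg 3).1 ⊆ (pr i).1 := by decide

lemma uniq {q : (S : M0) → Out k2 S → ℝ} (hq : q ∈ Models M0 k2) (h0 : ∀ S x, c S.1 x = 0 → q S x = 0) :
    q = p0 := by
  obtain ⟨-, h1, h2⟩ := hq
  have a1 := h1 T0
  rw [red (h0 T0) _ {e _ 0, e _ 1, e _ 2} (by decide +kernel), sum_insert (by decide +kernel),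
    sum_pair (by decide +kernel)] at a1
  have a2 : ∀ i : Fin 3, q (pr i) (cst _ 0) + q (pr i) (cst _ 1) = 1 := fun i => by
    have := h1 (pr i)
    rwa [red (h0 (pr i)) _ {cst _ 0, cst _ 1} (by fin_cases i <;> decide +kernel),
      sum_pair (by fin_cases i <;> decide +kernel)] at this
  have a3 : ∀ i : Fin 3, q T0 (e _ i.castSucc) = q (sg 3) (cst _ 1) := fun i => by
    have b1 := h2 (sg i.castSucc) T0 (s1 i) (cst _ 1)
    have b2 := h2 (sg i.castSucc) (pr i) (s2 i) (cst _ 1)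
    have b3 := h2 (sg 3) (pr i) (s3 i) (cst _ 1)
    rw [red (h0 T0) _ {e _ i.castSucc} (by fin_cases i <;> decide +kernel), sum_singleton] at b1
    rw [red (h0 (pr i)) _ {cst _ 1} (by fin_cases i <;> decide +kernel), sum_singleton] at b2
    rw [red (h0 (pr i)) _ {cst _ 1} (by fin_cases i <;> decide +kernel), sum_singleton] at b3
    rw [← b1, b2, b3]
  have a4 : ∀ i : Fin 3, q (pr i) (cst _ 1) = q (sg 3) (cst _ 1) := fun i => by
    have b3 := h2 (sg 3) (pr i) (s3 i) (cst _ 1)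
    rw [red (h0 _) _ {cst _ 1} (by fin_cases i <;> decide +kernel), sum_singleton] at b3
    exact b3.symm
  have a5 : q (sg 3) (cst _ 1) = 1 / 3 := by
    have b0 := a3 0
    have b1 := a3 1
    have b2 := a3 2
    change q T0 (e _ 0) = _ at b0
    change q T0 (e _ 1) = _ at b1
    change q T0 (e _ 2) = _ at b2
    linarith
  have m1 : q T0 = p0 T0 := funext fun x => by
    have : ∀ x : Out k2 T0.1, c _ x = 0 ∨ c _ x = 1 ∧ ∃ i : Fin 3, x = e _ i.castSucc := by decide +kernel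
    rcases this x with h | ⟨h, i, rfl⟩
    · rw [h0 _ _ h, p0, h]; simp
    · rw [a3, a5, p0, h]; simp
  have m2 : ∀ i, q (pr i) = p0 (pr i) := fun i => funext fun x => by
    have : ∀ i, ∀ x : Out k2 (pr i).1, c _ x = 0 ∨ c _ x = 1 ∧ x = cst _ 1 ∨ c _ x = 2 ∧ x = cst _ 0 := by
      decide +kernel
    rcases this i x with h | ⟨h, rfl⟩ | ⟨h, rfl⟩
    · rw [h0 _ _ h, p0, h]; simp
    · rw [a4, a5, p0, h]; simp
    · have := a2 i
      rw [a4, a5] at this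
      rw [p0, h]; push_cast; linarith
  funext S y
  have : S.1 ⊆ T0.1 ∨ ∃ i, S.1 ⊆ (pr i).1 := by
    rcases S.2 with h | h | h | h
    exacts [.inl h, .inr ⟨0, h⟩, .inr ⟨1, h⟩, .inr ⟨2, h⟩]
  rcases this with h | ⟨i, h⟩
  · rw [h2 S T0 h, m1, ← p0_mem.2.2]
  · rw [h2 S _ h, m2, ← p0_mem.2.2]

lemma Hred (S : M0) (G : Finset (Out k2 S.1)) (h : G ⊆ univ ∧ ∀ x ∈ univ, x ∉ G → c S x = 0) :
    H (p0 S) = ∑ x ∈ G, -((c S x : ℝ) / 3 * Real.log ((c S x : ℝ) / 3)) :=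
  red (q := fun x => -((c S x : ℝ) / 3 * Real.log ((c S x : ℝ) / 3))) (fun x hx => by simp [hx]) _ _ h

lemma H3 (S : M0) (h : 3 ∈ S.1) :
    H (p0 S) = -(1 / 3 * Real.log (1 / 3)) - 2 / 3 * Real.log (2 / 3) := by
  have h1 : cst S 0 ≠ cst S 1 := fun h' => absurd (congrFun h' ⟨3, h⟩) (by decide : (0 : Fin 2) ≠ 1)
  rw [Hred S {cst _ 1, cst _ 0} ⟨subset_univ _, fun x _ hx => by
    simp only [mem_insert, mem_singleton, not_or] at hx
    simp [c, h, hx.1, hx.2]⟩, sum_pair h1.symm]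
  simp [c, h, h1]
  ring

theorem result : ∃ (n : ℕ) (M : Set (Finset (Fin n))) (k : Fin n → ℕ), Scenario M ∧ (∀ i, 0 < k i) ∧
    ∃ p ∈ (Models M k).extremePoints ℝ,
      ¬ ∃ f : Finset (Fin n) → ℝ, Polymatroid f ∧ ∀ S : M, f S = H (p S) := by
  refine ⟨4, M0, k2, ⟨by decide +kernel, by decide, by decide⟩, fun _ => two_pos, p0, ⟨p0_mem, ?_⟩, ?_⟩
  · rintro q hq r hr ⟨a, b, ha, hb, -, h⟩
    refine uniq hq fun S x hx => ?_
    have h1 : a * q S x + b * r S x = 0 := by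
      have := congrFun (congrFun h S) x
      simpa [p0, hx] using this
    have := hq.1 S x
    have := hr.1 S x
    nlinarith
  · rintro ⟨f, ⟨-, h1, h2⟩, h3⟩
    have b1 := h3 (pr 0)
    have b2 := h3 (pr 1)
    have b3 := h3 (sg 3)
    have b4 := h3 ⟨{0, 1}, by decide⟩
    rw [H3 _ (by decide)] at b1 b2 b3
    rw [Hred _ {e _ 0, e _ 1, e _ 2} (by decide +kernel), sum_insert (by decide +kernel),
      sum_pair (by decide +kernel)] at b4
    have c0 : c {0, 1} (e _ 0) = 1 := by decide +kernel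
    have c1 : c {0, 1} (e _ 1) = 1 := by decide +kernel
    have c2 : c {0, 1} (e _ 2) = 1 := by decide +kernel
    simp only [c0, c1, c2] at b4
    have b5 := h2 (pr 0).1 (pr 1).1
    have b6 := h1 {0, 1} ((pr 0).1 ∪ (pr 1).1) (by decide)
    rw [show (pr 0).1 ∩ (pr 1).1 = (sg 3).1 by decide] at b5
    have : Real.log (1 / 3) < Real.log (2 / 3) := Real.log_lt_log (by norm_num) (by norm_num)
    push_cast at b4
    linarith

end Pool.Agent.Results.MP_2f9b3f_lc.Counter
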